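import Pool.Agent.H917R2.BP.Stm
import Pool.Agent.H804R2.DP.Ulim
import Pool.Agent.H711R2.Tr1

/-! Task rn of project BP: the linear Radon-Nikodym theorem (helper743). -/

set_option autoImplicit false

open scoped ComplexOrder InnerProductSpace ComplexConjugate Topology
open Filter

noncomputable section

namespace Pool.Agent.H743R2.BP.Rn

variable {H : Type} [NormedAddCommGroup H] [InnerProductSpace ℂ H] [CompleteSpace H]

/-- admissible densities -/
structure QQ (M : VonNeumannAlgebra H) (c : ℝ) (m : H →L[ℂ] H) : Prop where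
  mem : m ∈ M
  sa : star m = m
  nrm : ‖m‖ ≤ c
  pos : ∀ η : H, 0 ≤ (⟪η, m η⟫_ℂ).re

/-- the functional of a density -/
def Th {ι : Type} [Fintype ι] (ζ : ι → H) (m x : H →L[ℂ] H) : ℂ :=
  (1 / 2 : ℂ) * (∑ i, ⟪ζ i, m (x (ζ i))⟫_ℂ + ∑ i, ⟪ζ i, x (m (ζ i))⟫_ℂ)

/-- `Th` is linear in `x` -/
def ThL {ι : Type} [Fintype ι] (ζ : ι → H) (m : H →L[ℂ] H) : (H →L[ℂ] H) →ₗ[ℂ] ℂ where
  toFun := Th ζ m
  map_add' x y := by
    simp only [Th, ContinuousLinearMap.add_apply, map_add, inner_add_right,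
      Finset.sum_add_distrib]
    ring
  map_smul' c x := by
    simp only [Th, ContinuousLinearMap.smul_apply, map_smul, inner_smul_right,
      ← Finset.mul_sum, RingHom.id_apply, smul_eq_mul]
    ring

lemma Th_comb {ι : Type} [Fintype ι] (ζ : ι → H) (m m' x : H →L[ℂ] H) (a b : ℂ) :
    Th ζ (a • m + b • m') x = a * Th ζ m x + b * Th ζ m' x := by
  simp only [Th, ContinuousLinearMap.add_apply, ContinuousLinearMap.smul_apply, map_add, map_smul,
    inner_add_right, inner_smul_right, Finset.sum_add_distrib, ← Finset.mul_sum]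
  ring

lemma smul_mem' {M : VonNeumannAlgebra H} {m : H →L[ℂ] H} (h : m ∈ M) (a : ℂ) : a • m ∈ M :=
  M.toStarSubalgebra.smul_mem h a

lemma QQ.comb {M : VonNeumannAlgebra H} {c : ℝ} {m m' : H →L[ℂ] H} (h : QQ M c m)
    (h' : QQ M c m') {a b : ℝ} (ha : 0 ≤ a) (hb : 0 ≤ b) (hab : a + b = 1) :
    QQ M c ((a : ℂ) • m + (b : ℂ) • m') where
  mem := add_mem (smul_mem' h.mem _) (smul_mem' h'.mem _)
  sa := by
    rw [star_add, star_smul, star_smul, h.sa, h'.sa]
    simp
  nrm := by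
    calc ‖(a : ℂ) • m + (b : ℂ) • m'‖ ≤ ‖(a : ℂ) • m‖ + ‖(b : ℂ) • m'‖ := norm_add_le _ _
      _ = a * ‖m‖ + b * ‖m'‖ := by
        rw [norm_smul, norm_smul, Complex.norm_real, Complex.norm_real, Real.norm_of_nonneg ha,
          Real.norm_of_nonneg hb]
      _ ≤ a * c + b * c := add_le_add (mul_le_mul_of_nonneg_left h.nrm ha)
        (mul_le_mul_of_nonneg_left h'.nrm hb)
      _ = c := by rw [← add_mul, hab, one_mul]
  pos η := by
    have h1 := h.pos η
    have h2 := h'.pos η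
    simp only [ContinuousLinearMap.add_apply, ContinuousLinearMap.smul_apply, inner_add_right,
      inner_smul_right, Complex.add_re, Complex.re_ofReal_mul]
    positivity

section cf

variable {X : H →L[ℂ] H} (hX : star X = X)
include hX

lemma cf_mul (f g : ℝ → ℝ) (hf : Continuous f) (hg : Continuous g) :
    cfc f X * cfc g X = cfc (fun t => f t * g t) X :=
  (cfc_mul f g X hf.continuousOn hg.continuousOn).symm

omit hX in
lemma cf_star (f : ℝ → ℝ) : star (cfc f X) = cfc f X :=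
  (cfc_predicate f X : IsSelfAdjoint (cfc f X)).star_eq

lemma cf_pos (f : ℝ → ℝ) (hf : Continuous f) (hf0 : ∀ t, 0 ≤ f t) :
    cfc f X = star (cfc (fun t => √(f t)) X) * cfc (fun t => √(f t)) X ∧
    ∀ η : H, (⟪η, cfc f X η⟫_ℂ).re = ‖cfc (fun t => √(f t)) X η‖ ^ 2 := by
  have hs : Continuous fun t => √(f t) := by fun_prop
  have h1 : cfc f X = star (cfc (fun t => √(f t)) X) * cfc (fun t => √(f t)) X := by
    rw [cf_star, cf_mul hX _ _ hs hs]
    congr 1
    funext t
    rw [Real.mul_self_sqrt (hf0 t)]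
  refine ⟨h1, fun η => ?_⟩
  have h2 : cfc f X η = ContinuousLinearMap.adjoint (cfc (fun t => √(f t)) X)
      (cfc (fun t => √(f t)) X η) := by
    conv_lhs => rw [h1]
    rfl
  rw [h2, ContinuousLinearMap.adjoint_inner_right, inner_self_eq_norm_sq_to_K]
  norm_cast

lemma cf_id : cfc (fun t : ℝ => t) X = X := cfc_id' ℝ X hX

end cf

/-- the main estimate -/
lemma stepB (M : VonNeumannAlgebra H) {ι : Type} [Fintype ι] (ζ : ι → H)
    (ψ : (H →L[ℂ] H) →ₗ[ℂ] ℂ) (c : ℝ) (hc : 0 ≤ c)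
    (hψ : ∀ x ∈ M, 0 ≤ ψ (star x * x) ∧ (ψ (star x * x)).re ≤ c * ∑ i, ‖x (ζ i)‖ ^ 2)
    (X : H →L[ℂ] H) (hXM : X ∈ M) (hX : star X = X) (d : ℝ) (hd : 0 < d) :
    ∃ m, QQ M c m ∧ (ψ X).re - c * d * ∑ i, ‖ζ i‖ ^ 2 ≤ (Th ζ m X).re := by
  set fd : ℝ → ℝ := fun t => min 1 (max 0 (t / d)) with hfd
  have hfdc : Continuous fd := by fun_prop
  have hfd0 : ∀ t, 0 ≤ fd t := fun t => le_min zero_le_one (le_max_left _ _)
  have hfd1 : ∀ t, fd t ≤ 1 := fun t => min_le_left _ _
  have hnrm : ‖cfc fd X‖ ≤ 1 := norm_cfc_le zero_le_one fun t _ => by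
    rw [Real.norm_of_nonneg (hfd0 t)]; exact hfd1 t
  refine ⟨(c : ℂ) • cfc fd X, ⟨smul_mem' (Pool.H711R2.cfc_mem_vn hXM fd) _, ?_, ?_, ?_⟩, ?_⟩
  · rw [star_smul, cf_star]
    simp
  · rw [norm_smul, Complex.norm_real, Real.norm_of_nonneg hc]
    nlinarith
  · intro η
    rw [ContinuousLinearMap.smul_apply, inner_smul_right, Complex.re_ofReal_mul,
      (cf_pos hX fd hfdc hfd0).2]
    positivity
  · -- the functions
    have hid : Continuous fun t : ℝ => t := continuous_id
    have hg : Continuous fun t => fd t * t := by fun_prop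
    have hp : Continuous fun t : ℝ => max t 0 := by fun_prop
    have hn : Continuous fun t : ℝ => max (-t) 0 := by fun_prop
    have hm1 : cfc fd X * X = cfc (fun t => fd t * t) X := by
      conv_lhs => rw [← cf_id hX]
      rw [cf_id hX]
      calc cfc fd X * X = cfc fd X * cfc (fun t : ℝ => t) X := by rw [cf_id hX]
        _ = cfc (fun t => fd t * t) X := cf_mul hX _ _ hfdc hid
    have hm2 : X * cfc fd X = cfc (fun t => fd t * t) X := by
      calc X * cfc fd X = cfc (fun t : ℝ => t) X * cfc fd X := by rw [cf_id hX]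
        _ = cfc (fun t => t * fd t) X := cf_mul hX _ _ hid hfdc
        _ = cfc (fun t => fd t * t) X := by
          congr 1
          funext t
          exact mul_comm _ _
    have hTh : (Th ζ ((c : ℂ) • cfc fd X) X).re =
        c * ∑ i, (⟪ζ i, cfc (fun t => fd t * t) X (ζ i)⟫_ℂ).re := by
      have e1 : ∀ v : H, ((c : ℂ) • cfc fd X) (X v) = (c : ℂ) • cfc (fun t => fd t * t) X v := by
        intro v
        rw [← hm1]
        rfl
      have e2 : ∀ v : H, X (((c : ℂ) • cfc fd X) v) = (c : ℂ) • cfc (fun t => fd t * t) X v := by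
        intro v
        rw [← hm2, ContinuousLinearMap.smul_apply, map_smul]
        rfl
      unfold Th
      simp only [e1, e2, inner_smul_right, ← Finset.mul_sum]
      have e3 : (1 / 2 : ℂ) * ((c : ℂ) * ∑ i, ⟪ζ i, cfc (fun t => fd t * t) X (ζ i)⟫_ℂ +
          (c : ℂ) * ∑ i, ⟪ζ i, cfc (fun t => fd t * t) X (ζ i)⟫_ℂ) =
          (c : ℂ) * ∑ i, ⟪ζ i, cfc (fun t => fd t * t) X (ζ i)⟫_ℂ := by ring
      rw [e3, Complex.re_ofReal_mul, Complex.re_sum]
    rw [hTh]
    -- positive and negative parts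
    have hXpn : X = cfc (fun t : ℝ => max t 0) X - cfc (fun t : ℝ => max (-t) 0) X := by
      rw [← cfc_sub (fun t : ℝ => max t 0) (fun t : ℝ => max (-t) 0) X hp.continuousOn
        hn.continuousOn]
      conv_lhs => rw [← cf_id hX]
      congr 1
      funext t
      rcases le_total 0 t with h | h
      · rw [max_eq_left h, max_eq_right (by linarith)]; ring
      · rw [max_eq_right h, max_eq_left (by linarith)]; ring
    obtain ⟨hP1, hP2⟩ := cf_pos hX (fun t : ℝ => max t 0) hp (fun t => le_max_right _ _)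
    obtain ⟨hN1, -⟩ := cf_pos hX (fun t : ℝ => max (-t) 0) hn (fun t => le_max_right _ _)
    have hy := hψ _ (Pool.H711R2.cfc_mem_vn hXM (fun t => √(max t 0)))
    have hz := hψ _ (Pool.H711R2.cfc_mem_vn hXM (fun t => √(max (-t) 0)))
    rw [← hP1] at hy
    rw [← hN1] at hz
    have hz0 : 0 ≤ (ψ (cfc (fun t : ℝ => max (-t) 0) X)).re := (Complex.le_def.1 hz.1).1
    have h1 : (ψ X).re ≤ c * ∑ i, (⟪ζ i, cfc (fun t : ℝ => max t 0) X (ζ i)⟫_ℂ).re := by
      have h2 : (ψ X).re = (ψ (cfc (fun t : ℝ => max t 0) X)).re -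
          (ψ (cfc (fun t : ℝ => max (-t) 0) X)).re := by
        conv_lhs => rw [hXpn]
        rw [map_sub, Complex.sub_re]
      have h3 : ∑ i, (⟪ζ i, cfc (fun t : ℝ => max t 0) X (ζ i)⟫_ℂ).re =
          ∑ i, ‖cfc (fun t => √(max t 0)) X (ζ i)‖ ^ 2 :=
        Finset.sum_congr rfl fun i _ => hP2 (ζ i)
      rw [h2, h3]
      linarith [hy.2]
    -- comparison
    have hh : Continuous fun t : ℝ => fd t * t - max t 0 + d := by fun_prop
    have hh0 : ∀ t : ℝ, 0 ≤ fd t * t - max t 0 + d := by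
      intro t
      rcases le_total t 0 with h | h
      · have : fd t = 0 := by
          simp only [hfd]
          rw [max_eq_left (div_nonpos_of_nonpos_of_nonneg h hd.le), min_eq_right zero_le_one]
        rw [this, max_eq_right h]
        linarith
      · rw [max_eq_left h]
        rcases le_total d t with h2 | h2
        · have : fd t = 1 := by
            simp only [hfd]
            have h4 : 1 ≤ t / d := by rwa [le_div_iff₀ hd, one_mul]
            rw [max_eq_right (by linarith), min_eq_left h4]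
          rw [this]
          linarith
        · have := mul_nonneg (hfd0 t) h
          linarith
    have h4 : ∀ v : H, (⟪v, cfc (fun t : ℝ => max t 0) X v⟫_ℂ).re ≤
        (⟪v, cfc (fun t => fd t * t) X v⟫_ℂ).re + d * ‖v‖ ^ 2 := by
      intro v
      have h5 := (cf_pos hX _ hh hh0).2 v
      have h6 : cfc (fun t : ℝ => fd t * t - max t 0 + d) X =
          cfc (fun t => fd t * t) X - cfc (fun t : ℝ => max t 0) X +
            algebraMap ℝ (H →L[ℂ] H) d := by
        rw [cfc_add X (fun t : ℝ => fd t * t - max t 0) (fun _ => d)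
          (by fun_prop) (by fun_prop), cfc_sub (fun t : ℝ => fd t * t) (fun t : ℝ => max t 0) X
          hg.continuousOn hp.continuousOn, cfc_const d X (show IsSelfAdjoint X from hX)]
      have h7 : algebraMap ℝ (H →L[ℂ] H) d v = (d : ℂ) • v := by
        rw [Algebra.algebraMap_eq_smul_one]
        simp
      rw [h6, ContinuousLinearMap.add_apply, ContinuousLinearMap.sub_apply, h7, inner_add_right,
        inner_sub_right, inner_smul_right, inner_self_eq_norm_sq_to_K] at h5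
      have h8 : ((d : ℂ) * ((‖v‖ : ℝ) : ℂ) ^ 2).re = d * ‖v‖ ^ 2 := by
        norm_cast
      have h9 : ((⟪v, cfc (fun t => fd t * t) X v⟫_ℂ - ⟪v, cfc (fun t : ℝ => max t 0) X v⟫_ℂ +
          (d : ℂ) * ((‖v‖ : ℝ) : ℂ) ^ 2) : ℂ).re = (⟪v, cfc (fun t => fd t * t) X v⟫_ℂ).re -
          (⟪v, cfc (fun t : ℝ => max t 0) X v⟫_ℂ).re + d * ‖v‖ ^ 2 := by
        rw [Complex.add_re, Complex.sub_re, h8]
      have h10 : 0 ≤ (⟪v, cfc (fun t => fd t * t) X v⟫_ℂ).re -
          (⟪v, cfc (fun t : ℝ => max t 0) X v⟫_ℂ).re + d * ‖v‖ ^ 2 := by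
        rw [← h9]
        refine le_trans (sq_nonneg _) (le_of_eq h5.symm)
      linarith
    have h11 : ∑ i, (⟪ζ i, cfc (fun t : ℝ => max t 0) X (ζ i)⟫_ℂ).re ≤
        ∑ i, (⟪ζ i, cfc (fun t => fd t * t) X (ζ i)⟫_ℂ).re + d * ∑ i, ‖ζ i‖ ^ 2 := by
      rw [Finset.mul_sum, ← Finset.sum_add_distrib]
      exact Finset.sum_le_sum fun i _ => h4 (ζ i)
    have h12 := mul_le_mul_of_nonneg_left h11 hc
    rw [mul_add] at h12
    have h13 : c * (d * ∑ i, ‖ζ i‖ ^ 2) = c * d * ∑ i, ‖ζ i‖ ^ 2 := by ring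
    linarith

/-- finitely many conditions, approximately -/
lemma stepA (M : VonNeumannAlgebra H) {ι : Type} [Fintype ι] (ζ : ι → H)
    (ψ : (H →L[ℂ] H) →ₗ[ℂ] ℂ) (c : ℝ) (hc : 0 ≤ c)
    (hψ : ∀ x ∈ M, 0 ≤ ψ (star x * x) ∧ (ψ (star x * x)).re ≤ c * ∑ i, ‖x (ζ i)‖ ^ 2)
    {κ : Type} [Fintype κ] (x : κ → (H →L[ℂ] H)) (hx : ∀ j, x j ∈ M ∧ star (x j) = x j)
    (ε : ℝ) (hε : 0 < ε) :
    ∃ m, QQ M c m ∧ ∀ j, |(Th ζ m (x j)).re - (ψ (x j)).re| < ε := by
  classical
  set K : Set (κ → ℝ) := {v | ∃ m, QQ M c m ∧ v = fun j => (Th ζ m (x j)).re} with hK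
  set p : κ → ℝ := fun j => (ψ (x j)).re with hp
  have hKc : Convex ℝ K := by
    rintro v ⟨m, hm, rfl⟩ v' ⟨m', hm', rfl⟩ a b ha hb hab
    refine ⟨(a : ℂ) • m + (b : ℂ) • m', hm.comb hm' ha hb hab, ?_⟩
    funext j
    rw [Th_comb, Complex.add_re, Complex.re_ofReal_mul, Complex.re_ofReal_mul]
    rfl
  have hmem : p ∈ closure K := by
    by_contra hcon
    obtain ⟨f, u, hf1, hf2⟩ := geometric_hahn_banach_closed_point hKc.closure isClosed_closure hcon
    set a : κ → ℝ := fun j => f (fun l => if j = l then 1 else 0) with ha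
    have hf : ∀ v : κ → ℝ, f v = ∑ j, v j * a j := by
      intro v
      have := LinearMap.pi_apply_eq_sum_univ (f : (κ → ℝ) →ₗ[ℝ] ℝ) v
      simpa [ha] using this
    set X : H →L[ℂ] H := ∑ j, ((a j : ℝ) : ℂ) • x j with hX
    have hXM : X ∈ M := sum_mem fun j _ => smul_mem' (hx j).1 _
    have hXs : star X = X := by
      rw [hX, star_sum]
      refine Finset.sum_congr rfl fun j _ => ?_
      rw [star_smul, (hx j).2]
      simp
    have hψX : (ψ X).re = f p := by
      rw [hX, map_sum, Complex.re_sum, hf]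
      refine Finset.sum_congr rfl fun j _ => ?_
      rw [map_smul, smul_eq_mul, Complex.re_ofReal_mul, mul_comm]
    have hThX : ∀ m, (Th ζ m X).re = f (fun j => (Th ζ m (x j)).re) := by
      intro m
      have h1 : Th ζ m X = ∑ j, ((a j : ℝ) : ℂ) * Th ζ m (x j) := by
        change ThL ζ m X = _
        rw [hX, map_sum]
        refine Finset.sum_congr rfl fun j _ => ?_
        rw [map_smul, smul_eq_mul]
        rfl
      rw [h1, Complex.re_sum, hf]
      refine Finset.sum_congr rfl fun j _ => ?_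
      rw [Complex.re_ofReal_mul, mul_comm]
    set S : ℝ := ∑ i, ‖ζ i‖ ^ 2 with hS
    have hS0 : 0 ≤ S := Finset.sum_nonneg fun i _ => sq_nonneg _
    have hgap : 0 < f p - u := by linarith
    have hcS : 0 < c * S + 1 := by positivity
    obtain ⟨m, hm, hmX⟩ := stepB M ζ ψ c hc hψ X hXM hXs ((f p - u) / (c * S + 1))
      (by positivity)
    rw [hψX, hThX m] at hmX
    have h2 : f (fun j => (Th ζ m (x j)).re) < u := hf1 _ (subset_closure ⟨m, hm, rfl⟩)
    have h3 : c * ((f p - u) / (c * S + 1)) * S < f p - u := by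
      have : c * ((f p - u) / (c * S + 1)) * S = (f p - u) * (c * S / (c * S + 1)) := by ring
      rw [this]
      have h4 : c * S / (c * S + 1) < 1 := by
        rw [div_lt_one hcS]; linarith
      calc (f p - u) * (c * S / (c * S + 1)) < (f p - u) * 1 :=
            mul_lt_mul_of_pos_left h4 hgap
        _ = f p - u := mul_one _
    linarith
  obtain ⟨v, ⟨m, hm, rfl⟩, hv⟩ := Metric.mem_closure_iff.1 hmem ε hε
  refine ⟨m, hm, fun j => ?_⟩
  have h1 := dist_le_pi_dist p (fun j => (Th ζ m (x j)).re) j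
  rw [Real.dist_eq] at h1
  rw [abs_sub_comm]
  exact lt_of_le_of_lt h1 hv

lemma Th_real {ι : Type} [Fintype ι] (ζ : ι → H) (m x : H →L[ℂ] H) (hm : star m = m)
    (hx : star x = x) : (Th ζ m x).im = 0 := by
  have hm' : ∀ a b : H, ⟪m a, b⟫_ℂ = ⟪a, m b⟫_ℂ := by
    intro a b
    conv_lhs => rw [← hm]
    exact ContinuousLinearMap.adjoint_inner_left m b a
  have hx' : ∀ a b : H, ⟪x a, b⟫_ℂ = ⟪a, x b⟫_ℂ := by
    intro a b
    conv_lhs => rw [← hx]
    exact ContinuousLinearMap.adjoint_inner_left x b a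
  rw [← Complex.conj_eq_iff_im]
  unfold Th
  rw [map_mul, map_add, map_sum, map_sum]
  simp only [inner_conj_symm, hm', hx']
  rw [add_comm (∑ i, ⟪ζ i, x (m (ζ i))⟫_ℂ)]
  congr 1
  rw [map_div₀, map_one, map_ofNat]

theorem t_rn : H917R2.BP.S_rn := by
  classical
  intro H _ _ _ M ι _ ζ ψ c hc hψ
  -- approximate solutions
  have hA : ∀ F : Finset (H →L[ℂ] H), ∀ n : ℕ, ∃ m, QQ M c m ∧
      ∀ x ∈ F, x ∈ M → star x = x → |(Th ζ m x).re - (ψ x).re| < 1 / ((n : ℝ) + 1) := by
    intro F n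
    obtain ⟨m, hm, hm2⟩ := stepA M ζ ψ c hc hψ
      (κ := {x : H →L[ℂ] H // x ∈ F.filter (fun x => x ∈ M ∧ star x = x)}) (fun j => j.1)
      (fun j => (Finset.mem_filter.1 j.2).2) (1 / ((n : ℝ) + 1)) (by positivity)
    exact ⟨m, hm, fun x hx h1 h2 => hm2 ⟨x, Finset.mem_filter.2 ⟨hx, h1, h2⟩⟩⟩
  choose mm hmm1 hmm2 using hA
  set I := Finset (H →L[ℂ] H) × ℕ with hI
  set U : Ultrafilter I := Ultrafilter.of (atTop : Filter I) with hU
  have hUle : (U : Filter I) ≤ atTop := Ultrafilter.of_le _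
  obtain ⟨m, hmn, hm⟩ := H710R2.DP.dp_ulim H I U (fun i => mm i.1 i.2) c
    (fun i => (hmm1 i.1 i.2).nrm)
  have hmsa : ∀ i : I, ∀ a b : H, ⟪mm i.1 i.2 a, b⟫_ℂ = ⟪a, mm i.1 i.2 b⟫_ℂ := by
    intro i a b
    conv_lhs => rw [← (hmm1 i.1 i.2).sa]
    exact ContinuousLinearMap.adjoint_inner_left _ b a
  have hsa' : ∀ a b : H, ⟪m a, b⟫_ℂ = ⟪a, m b⟫_ℂ := by
    intro a b
    have h1 : Tendsto (fun i : I => conj ⟪b, mm i.1 i.2 a⟫_ℂ) U (𝓝 (conj ⟪b, m a⟫_ℂ)) :=
      (Complex.continuous_conj.tendsto _).comp (hm a b)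
    have h2 : Tendsto (fun i : I => ⟪a, mm i.1 i.2 b⟫_ℂ) U (𝓝 ⟪a, m b⟫_ℂ) := hm b a
    have h3 : (fun i : I => conj ⟪b, mm i.1 i.2 a⟫_ℂ) = fun i : I => ⟪a, mm i.1 i.2 b⟫_ℂ := by
      funext i
      rw [inner_conj_symm, hmsa]
    rw [h3] at h1
    rw [← inner_conj_symm]
    exact tendsto_nhds_unique h1 h2
  have hsa : star m = m := by
    refine ContinuousLinearMap.ext fun a => ext_inner_right ℂ fun b => ?_
    have : ⟪(star m) a, b⟫_ℂ = ⟪a, m b⟫_ℂ := ContinuousLinearMap.adjoint_inner_left m b a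
    rw [this, hsa']
  have hmM : m ∈ M := by
    have h1 : m ∈ M.commutant.commutant := by
      rw [VonNeumannAlgebra.mem_commutant_iff]
      intro T hT
      refine ContinuousLinearMap.ext fun a => ext_inner_left ℂ fun b => ?_
      change ⟪b, T (m a)⟫_ℂ = ⟪b, m (T a)⟫_ℂ
      have h2 : Tendsto (fun i : I => ⟪b, mm i.1 i.2 (T a)⟫_ℂ) U (𝓝 ⟪b, m (T a)⟫_ℂ) := hm (T a) b
      have h3 : Tendsto (fun i : I => ⟪ContinuousLinearMap.adjoint T b, mm i.1 i.2 a⟫_ℂ) U
          (𝓝 ⟪ContinuousLinearMap.adjoint T b, m a⟫_ℂ) := hm a _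
      have h4 : (fun i : I => ⟪b, mm i.1 i.2 (T a)⟫_ℂ) =
          fun i : I => ⟪ContinuousLinearMap.adjoint T b, mm i.1 i.2 a⟫_ℂ := by
        funext i
        rw [ContinuousLinearMap.adjoint_inner_left]
        have h5 : mm i.1 i.2 * T = T * mm i.1 i.2 :=
          VonNeumannAlgebra.mem_commutant_iff.1 hT _ (hmm1 i.1 i.2).mem
        have h6 := congrArg (fun y : H →L[ℂ] H => y a) h5
        simp only [ContinuousLinearMap.mul_apply] at h6
        rw [h6]
      rw [h4] at h2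
      have h5 := tendsto_nhds_unique h2 h3
      rw [h5, ContinuousLinearMap.adjoint_inner_left]
    simpa using h1
  have hpos : ∀ η : H, 0 ≤ (⟪η, m η⟫_ℂ).re := by
    intro η
    have h1 : Tendsto (fun i : I => (⟪η, mm i.1 i.2 η⟫_ℂ).re) U (𝓝 (⟪η, m η⟫_ℂ).re) :=
      (Complex.continuous_re.tendsto _).comp (hm η η)
    exact ge_of_tendsto' h1 fun i => (hmm1 i.1 i.2).pos η
  have hle : ∀ η : H, (⟪η, m η⟫_ℂ).re ≤ c * ‖η‖ ^ 2 := by
    intro η
    calc (⟪η, m η⟫_ℂ).re ≤ ‖⟪η, m η⟫_ℂ‖ := Complex.re_le_norm _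
      _ ≤ ‖η‖ * ‖m η‖ := norm_inner_le_norm _ _
      _ ≤ ‖η‖ * (c * ‖η‖) := mul_le_mul_of_nonneg_left (m.le_of_opNorm_le hmn η) (norm_nonneg _)
      _ = c * ‖η‖ ^ 2 := by ring
  -- equality of the real parts on self-adjoint elements
  have hThlim : ∀ x : H →L[ℂ] H, Tendsto (fun i : I => Th ζ (mm i.1 i.2) x) U (𝓝 (Th ζ m x)) := by
    intro x
    unfold Th
    refine Tendsto.const_mul _ (Tendsto.add ?_ ?_)
    · exact tendsto_finsetSum _ fun j _ => hm (x (ζ j)) (ζ j)
    · refine tendsto_finsetSum _ fun j _ => ?_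
      have h1 := hm (ζ j) (ContinuousLinearMap.adjoint x (ζ j))
      simpa only [ContinuousLinearMap.adjoint_inner_left] using h1
  have hre : ∀ x ∈ M, star x = x → (Th ζ m x).re = (ψ x).re := by
    intro x hxM hx
    have h1 : Tendsto (fun i : I => (Th ζ (mm i.1 i.2) x).re) U (𝓝 (Th ζ m x).re) :=
      (Complex.continuous_re.tendsto _).comp (hThlim x)
    have h2 : Tendsto (fun i : I => (Th ζ (mm i.1 i.2) x).re) U (𝓝 (ψ x).re) := by
      have h3 : Tendsto (fun i : I => 1 / ((i.2 : ℝ) + 1)) U (𝓝 0) := by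
        have h4 : Tendsto (fun i : I => i.2) U atTop :=
          (tendsto_snd.comp (by rw [prod_atTop_atTop_eq]; exact tendsto_id)).mono_left hUle
        exact tendsto_one_div_add_atTop_nhds_zero_nat.comp h4
      rw [tendsto_iff_dist_tendsto_zero]
      refine squeeze_zero' (Eventually.of_forall fun i => dist_nonneg) ?_ h3
      have h5 : ∀ᶠ i : I in (U : Filter I), {x} ≤ i.1 := by
        refine hUle ?_
        exact (eventually_ge_atTop (({x}, 0) : I)).mono fun i hi => hi.1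
      filter_upwards [h5] with i hi
      rw [Real.dist_eq]
      exact (hmm2 i.1 i.2 x (hi (Finset.mem_singleton_self x)) hxM hx).le
    exact tendsto_nhds_unique h1 h2
  -- positive functionals are real
  have him : ∀ x ∈ M, star x = x → (ψ x).im = 0 := by
    intro x hxM hx
    have hp : Continuous fun t : ℝ => max t 0 := by fun_prop
    have hn : Continuous fun t : ℝ => max (-t) 0 := by fun_prop
    have hXpn : x = cfc (fun t : ℝ => max t 0) x - cfc (fun t : ℝ => max (-t) 0) x := by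
      rw [← cfc_sub (fun t : ℝ => max t 0) (fun t : ℝ => max (-t) 0) x hp.continuousOn
        hn.continuousOn]
      conv_lhs => rw [← cf_id hx]
      congr 1
      funext t
      rcases le_total 0 t with h | h
      · rw [max_eq_left h, max_eq_right (by linarith)]; ring
      · rw [max_eq_right h, max_eq_left (by linarith)]; ring
    obtain ⟨hP1, -⟩ := cf_pos hx (fun t : ℝ => max t 0) hp (fun t => le_max_right _ _)
    obtain ⟨hN1, -⟩ := cf_pos hx (fun t : ℝ => max (-t) 0) hn (fun t => le_max_right _ _)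
    have hy := (hψ _ (Pool.H711R2.cfc_mem_vn hxM (fun t => √(max t 0)))).1
    have hz := (hψ _ (Pool.H711R2.cfc_mem_vn hxM (fun t => √(max (-t) 0)))).1
    rw [← hP1] at hy
    rw [← hN1] at hz
    rw [hXpn, map_sub, Complex.sub_im]
    have e1 := (Complex.le_def.1 hy).2
    have e2 := (Complex.le_def.1 hz).2
    simp only [Complex.zero_im] at e1 e2
    rw [← e1, ← e2, sub_zero]
  have hsaeq : ∀ x ∈ M, star x = x → ψ x = Th ζ m x := by
    intro x hxM hx
    exact Complex.ext (hre x hxM hx).symm (by rw [him x hxM hx, Th_real ζ m x hsa hx])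
  refine ⟨m, hmM, hsa, fun η => ⟨hpos η, hle η⟩, fun x hx => ?_⟩
  change ψ x = Th ζ m x
  -- decomposition into self-adjoint parts
  set y : H →L[ℂ] H := (1 / 2 : ℂ) • (x + star x) with hy
  set z : H →L[ℂ] H := (-(Complex.I) / 2 : ℂ) • (x - star x) with hz
  have hsx : star x ∈ M := star_mem hx
  have hyM : y ∈ M := smul_mem' (add_mem hx hsx) _
  have hzM : z ∈ M := smul_mem' (sub_mem hx hsx) _
  have hys : star y = y := by
    rw [hy, star_smul, star_add, star_star, add_comm]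
    simp
  have hzs : star z = z := by
    rw [hz, star_smul, star_sub, star_star]
    have : star (-(Complex.I) / 2 : ℂ) = Complex.I / 2 := by
      simp
    rw [this, ← neg_sub x (star x), smul_neg, ← neg_smul]
    congr 1
    ring
  have hxyz : x = y + Complex.I • z := by
    rw [hy, hz, smul_smul]
    have h1 : Complex.I * (-(Complex.I) / 2) = 1 / 2 := by
      have := Complex.I_mul_I
      linear_combination (-1 / 2 : ℂ) * this
    rw [h1, ← smul_add, add_add_sub_cancel, ← two_smul ℂ x, smul_smul]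
    norm_num
  have h1 := hsaeq y hyM hys
  have h2 := hsaeq z hzM hzs
  have h3 : Th ζ m x = Th ζ m y + Complex.I * Th ζ m z := by
    conv_lhs => rw [hxyz]
    have e1 : ThL ζ m (y + Complex.I • z) = ThL ζ m y + ThL ζ m (Complex.I • z) := map_add _ _ _
    have e2 : ThL ζ m (Complex.I • z) = Complex.I • ThL ζ m z := map_smul _ _ _
    rw [e2] at e1
    exact e1
  rw [h3, ← h1, ← h2]
  have e3 : ψ (y + Complex.I • z) = ψ y + ψ (Complex.I • z) := map_add _ _ _
  have e4 : ψ (Complex.I • z) = Complex.I • ψ z := map_smul _ _ _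
  conv_lhs => rw [hxyz]
  rw [e3, e4, smul_eq_mul]

end Pool.Agent.H743R2.BP.Rn
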